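import Pool.Agent.CH4.Final

/-!
# MP_87880a_co: the chromatic spectrum of Steiner triple systems is an interval for all large orders

`C n` is the set of the chromatic numbers of the Steiner triple systems on `n` points, written as in
the problem.  There is `n₀` such that for all `n ≥ n₀` the set `C n` is an interval of integers; more
precisely every `k ∈ C n` is at least `3`, and all integers `q` with `4 ≤ q ≤ k` are in `C n`.
Nothing is assumed, and no result from the literature is used.
-/

set_option autoImplicit false

namespace Pool.Agent.Results.MP_87880a_co.IntervalLarge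

/-- The set `C(n)` of the chromatic numbers of the Steiner triple systems on `n` points: a system is a
set `B` of 3-element blocks such that every pair of points lies in exactly one block, a colouring is
proper if every block has two points of different colours, and the chromatic number is the least
number of colours of a proper colouring. -/
def C (n : ℕ) : Set ℕ :=
  {k : ℕ | ∃ B : Finset (Finset (Fin n)),
    (∀ b ∈ B, b.card = 3) ∧
    (∀ x y : Fin n, x ≠ y → ∃! b : Finset (Fin n), b ∈ B ∧ x ∈ b ∧ y ∈ b) ∧
    sInf {m : ℕ | ∃ c : Fin n → Fin m, ∀ b ∈ B, ∃ x ∈ b, ∃ y ∈ b, c x ≠ c y} = k}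

/-- For all sufficiently large `n` the chromatic spectrum `C n` is an interval of integers (Q1 for all
large orders).  It has no element below `3` and contains every `q` with `4 ≤ q ≤ k` for `k ∈ C n`. -/
theorem result : ∃ n₀ : ℕ, ∀ n ≥ n₀,
    Set.OrdConnected (C n) ∧ (∀ k ∈ C n, 3 ≤ k) ∧
      ∀ k ∈ C n, ∀ q : ℕ, 4 ≤ q → q ≤ k → q ∈ C n := by
  obtain ⟨n1, h1⟩ := Pool.Agent.CH4.main4
  obtain ⟨n2, h2⟩ := Pool.Agent.CH4.final4
  refine ⟨n1 + n2 + 5, fun n hn => ⟨h1 n (by omega), ?_, h2 n (by omega)⟩⟩
  intro k hk
  obtain ⟨m, rfl⟩ := (Pool.Agent.CHS.conv n k).1 hk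
  exact Pool.Agent.CH4.low m (by rw [Fintype.card_fin]; omega)

end Pool.Agent.Results.MP_87880a_co.IntervalLarge
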